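import Mathlib

/-!
Job for helper856 (Selberg's density theorem for Hecke L-functions), proved by helper291:
a zero counting lemma, pure complex analysis (Jensen's formula for `g (s₀ + (1/λ) log w)`).
-/

set_option autoImplicit false

open Complex Filter Topology MeasureTheory

namespace Pool.Agent.A856.SD

theorem jensen_log {g : ℂ → ℂ} (hg : Differentiable ℂ g) {s₀ : ℂ} {lam R c₁ : ℝ} (hl : 0 < lam)
    (hR : 1 ≤ R) (hc : 0 < c₁) (Z : Finset ℂ)
    (h1 : ∀ ρ ∈ Z, |((lam : ℂ) * (ρ - s₀)).im| < Real.pi / 2)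
    (h2 : ∀ ρ ∈ Z, c₁ ≤ (cexp (lam * (ρ - s₀))).re - 1)
    (h3 : ∀ ρ ∈ Z, ‖cexp (lam * (ρ - s₀))‖ ^ 2 ≤ R * ((cexp (lam * (ρ - s₀))).re - 1))
    (hne : g (s₀ + 1 / lam * Complex.log ((R : ℂ) + 1)) ≠ 0) (U : ℂ → ℝ)
    (hU : CircleIntegrable U ((R : ℂ) + 1) R)
    (hUg : ∀ w : ℂ, ‖w - ((R : ℂ) + 1)‖ = R → Real.log ‖g (s₀ + 1 / lam * Complex.log w)‖ ≤ U w) :
    c₁ / (2 * R) * ∑ ρ ∈ Z, (analyticOrderNatAt g ρ : ℝ) ≤
      Real.circleAverage U ((R : ℂ) + 1) R -
        Real.log ‖g (s₀ + 1 / lam * Complex.log ((R : ℂ) + 1))‖ := by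
  classical
  obtain ⟨c, hcd⟩ : ∃ c : ℂ, c = (R : ℂ) + 1 := ⟨_, rfl⟩
  rw [← hcd] at hne hU hUg ⊢
  obtain ⟨φ, hφ⟩ : ∃ φ : ℂ → ℂ, φ = fun w => s₀ + 1 / lam * Complex.log w := ⟨_, rfl⟩
  have hφe : ∀ w, φ w = s₀ + 1 / lam * Complex.log w := fun w => by rw [hφ]
  simp only [← hφe] at hne hUg ⊢
  have hR0 : 0 < R := by linarith
  have hRa : |R| = R := abs_of_pos hR0
  have hlC : (lam : ℂ) ≠ 0 := by exact_mod_cast hl.ne'
  have hcre : c.re = R + 1 := by rw [hcd]; simp
  have hcim : c.im = 0 := by rw [hcd]; simp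
  -- the closed disc lies in the right half plane
  have hball : ∀ w ∈ Metric.closedBall c |R|, 1 ≤ w.re := by
    intro w hw
    rw [hRa, Metric.mem_closedBall, dist_eq_norm] at hw
    have e1 : |(w - c).re| ≤ R := (Complex.abs_re_le_norm _).trans hw
    rw [Complex.sub_re, hcre] at e1
    have := (abs_le.1 e1).1
    linarith
  have hslit : ∀ w ∈ Metric.closedBall c |R|, w ∈ Complex.slitPlane := fun w hw =>
    Or.inl (by linarith [hball w hw])
  have hφa : ∀ w ∈ Complex.slitPlane, AnalyticAt ℂ φ w := fun w hw => by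
    rw [hφ]
    exact analyticAt_const.add (analyticAt_const.mul (analyticAt_clog hw))
  have hga : ∀ z, AnalyticAt ℂ g z := fun z => hg.analyticAt z
  have hha : AnalyticOnNhd ℂ (g ∘ φ) (Metric.closedBall c |R|) := fun w hw =>
    (hga _).comp (hφa w (hslit w hw))
  have hderiv : ∀ w ∈ Complex.slitPlane, deriv φ w ≠ 0 := by
    intro w hw
    have e : HasDerivAt φ (1 / lam * w⁻¹) w := by
      rw [hφ]
      exact ((Complex.hasDerivAt_log hw).const_mul _).const_add _
    rw [e.deriv]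
    exact mul_ne_zero (one_div_ne_zero hlC) (inv_ne_zero (Complex.slitPlane_ne_zero hw))
  have hcin : c ∈ Metric.closedBall c |R| := by simp
  have hhc : (g ∘ φ) c ≠ 0 := hne
  -- Jensen's formula
  have J := MeromorphicOn.circleAverage_log_norm (f := g ∘ φ) (c := c) hR0.ne' hha.meromorphicOn
  obtain ⟨D, hD⟩ : ∃ D, D = MeromorphicOn.divisor (g ∘ φ) (Metric.closedBall c |R|) := ⟨_, rfl⟩
  rw [← hD] at J
  have hDord : ∀ w ∈ Metric.closedBall c |R|, D w = (analyticOrderNatAt g (φ w) : ℤ) := by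
    intro w hw
    rw [hD, MeromorphicOn.AnalyticOnNhd.divisor_apply hha hw,
      analyticOrderAt_comp_of_deriv_ne_zero (hφa w (hslit w hw)) (hderiv w (hslit w hw))]
    unfold analyticOrderNatAt
    cases hn : analyticOrderAt g (φ w) with
    | top => simp
    | coe n => simp
  have hDc : D c = 0 := by
    rw [hDord c hcin]
    have : analyticOrderNatAt g (φ c) = 0 := by
      by_contra hcon
      exact hne (apply_eq_zero_of_analyticOrderNatAt_ne_zero hcon)
    rw [this]; rfl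
  have htr : meromorphicTrailingCoeffAt (g ∘ φ) c = g (φ c) :=
    (hha c hcin).meromorphicTrailingCoeffAt_of_ne_zero hhc
  rw [hDc, htr] at J
  -- the average
  have hint : CircleIntegrable (fun w => Real.log ‖(g ∘ φ) w‖) c R := by
    apply MeromorphicOn.circleIntegrable_log_norm
    exact (hha.mono Metric.sphere_subset_closedBall).meromorphicOn
  have hav : Real.circleAverage (fun w => Real.log ‖(g ∘ φ) w‖) c R ≤ Real.circleAverage U c R := by
    apply Real.circleAverage_mono hint hU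
    intro w hw
    rw [hRa] at hw
    exact hUg w (by rwa [Metric.mem_sphere, dist_eq_norm] at hw)
  -- the points
  obtain ⟨W, hW⟩ : ∃ W : ℂ → ℂ, W = fun ρ => cexp (lam * (ρ - s₀)) := ⟨_, rfl⟩
  have hWe : ∀ ρ, W ρ = cexp (lam * (ρ - s₀)) := fun ρ => by rw [hW]
  simp only [← hWe] at h2 h3
  have hφW : ∀ ρ ∈ Z, φ (W ρ) = ρ := by
    intro ρ hρ
    have e := h1 ρ hρ
    rw [abs_lt] at e
    rw [hφe, hWe, Complex.log_exp (by linarith [Real.pi_pos]) (by linarith [Real.pi_pos])]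
    field_simp
    ring
  have hinj : Set.InjOn W Z := by
    intro a ha b hb hab
    have := hφW a ha
    rw [hab, hφW b hb] at this
    exact this.symm
  have hdist : ∀ ρ ∈ Z, ‖c - W ρ‖ ^ 2 ≤ R ^ 2 - R * c₁ := by
    intro ρ hρ
    have e2 := h2 ρ hρ
    have e3 := h3 ρ hρ
    rw [← Complex.normSq_eq_norm_sq, Complex.normSq_apply] at e3 ⊢
    rw [Complex.sub_re, Complex.sub_im, hcre, hcim]
    nlinarith
  have hmem : ∀ ρ ∈ Z, W ρ ∈ Metric.closedBall c |R| := by
    intro ρ hρ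
    rw [hRa, Metric.mem_closedBall, dist_comm, dist_eq_norm]
    have := hdist ρ hρ
    have hpos : 0 < R * c₁ := mul_pos hR0 hc
    exact abs_le_of_sq_le_sq' (by linarith) hR0.le |>.2
  have hlog : ∀ ρ ∈ Z, c₁ / (2 * R) * (analyticOrderNatAt g ρ : ℝ) ≤
      (D (W ρ) : ℝ) * Real.log (R * ‖c - W ρ‖⁻¹) := by
    intro ρ hρ
    have e1 : D (W ρ) = (analyticOrderNatAt g ρ : ℤ) := by
      rw [hDord _ (hmem ρ hρ), hφW ρ hρ]
    rw [e1]
    push_cast
    rcases eq_or_ne (W ρ) c with hwc | hwc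
    · have e2 : analyticOrderNatAt g ρ = 0 := by
        have e3 := e1
        rw [hwc, hDc] at e3
        exact_mod_cast e3.symm
      rw [e2]; simp
    · have hn : 0 < ‖c - W ρ‖ := norm_pos_iff.2 (sub_ne_zero.2 hwc.symm)
      rw [mul_comm]
      refine mul_le_mul_of_nonneg_left ?_ (Nat.cast_nonneg _)
      have e4 := Real.one_sub_inv_le_log_of_pos (x := (R * ‖c - W ρ‖⁻¹) ^ 2) (by positivity)
      rw [Real.log_pow] at e4
      have e5 : ((R * ‖c - W ρ‖⁻¹) ^ 2)⁻¹ = ‖c - W ρ‖ ^ 2 / R ^ 2 := by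
        field_simp
      have e6 : ‖c - W ρ‖ ^ 2 / R ^ 2 ≤ 1 - c₁ / R := by
        rw [div_le_iff₀ (by positivity)]
        have := hdist ρ hρ
        have e7 : (1 - c₁ / R) * R ^ 2 = R ^ 2 - R * c₁ := by field_simp
        rw [e7]; exact this
      have e8 : c₁ / (2 * R) = (c₁ / R) / 2 := by field_simp
      rw [e8]
      push_cast at e4
      linarith
  -- all the terms are nonnegative
  have hnn : ∀ u, 0 ≤ (D u : ℝ) * Real.log (R * ‖c - u‖⁻¹) := by
    intro u
    by_cases hu : u ∈ Metric.closedBall c |R|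
    · rw [hDord u hu]
      push_cast
      refine mul_nonneg (Nat.cast_nonneg _) ?_
      rcases eq_or_ne u c with rfl | huc
      · simp
      · have hn : 0 < ‖c - u‖ := norm_pos_iff.2 (sub_ne_zero.2 huc.symm)
        apply Real.log_nonneg
        rw [hRa, Metric.mem_closedBall, dist_comm, dist_eq_norm] at hu
        rw [← div_eq_mul_inv, one_le_div hn]
        exact hu
    · have : D u = 0 := by
        rw [hD]
        exact Function.locallyFinsuppWithin.apply_eq_zero_of_notMem _ hu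
      rw [this]; simp
  have hfin : (Function.support fun u => (D u : ℝ) * Real.log (R * ‖c - u‖⁻¹)).Finite := by
    refine (D.finiteSupport (isCompact_closedBall c |R|)).subset ?_
    intro u hu hcon
    apply hu
    have : D u = 0 := hcon
    simp [this]
  have hsum : c₁ / (2 * R) * ∑ ρ ∈ Z, (analyticOrderNatAt g ρ : ℝ) ≤
      ∑ᶠ u, (D u : ℝ) * Real.log (R * ‖c - u‖⁻¹) := by
    rw [finsum_eq_sum_of_support_subset (s := hfin.toFinset ∪ Z.image W) _ (by
      intro u hu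
      simp only [Finset.coe_union, Set.mem_union]
      left
      rw [Finset.mem_coe, Set.Finite.mem_toFinset]
      exact hu)]
    calc c₁ / (2 * R) * ∑ ρ ∈ Z, (analyticOrderNatAt g ρ : ℝ)
        = ∑ ρ ∈ Z, c₁ / (2 * R) * (analyticOrderNatAt g ρ : ℝ) := by rw [Finset.mul_sum]
      _ ≤ ∑ ρ ∈ Z, (D (W ρ) : ℝ) * Real.log (R * ‖c - W ρ‖⁻¹) := Finset.sum_le_sum hlog
      _ = ∑ u ∈ Z.image W, (D u : ℝ) * Real.log (R * ‖c - u‖⁻¹) := by
          rw [Finset.sum_image hinj]
      _ ≤ _ := Finset.sum_le_sum_of_subset_of_nonneg Finset.subset_union_right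
          fun u _ _ => hnn u
  have J' : Real.circleAverage (fun w => Real.log ‖(g ∘ φ) w‖) c R =
      ∑ᶠ u, (D u : ℝ) * Real.log (R * ‖c - u‖⁻¹) + ((0 : ℤ) : ℝ) * Real.log R +
        Real.log ‖g (φ c)‖ := J
  rw [J'] at hav
  push_cast at hav
  linarith

end Pool.Agent.A856.SD
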