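import Pool.Agent.A856.SD.Ker

set_option autoImplicit false

open Complex Filter Topology MeasureTheory

namespace Pool.Agent.A856.SD

namespace KerInt

theorem nz {κ : ℝ} (hκ : 0 < κ) (v : ℝ) : ((κ : ℂ) + v * I) ≠ 0 := by
  intro h
  have := congrArg Complex.re h
  simp at this
  exact hκ.ne' this

theorem normsq (κ v : ℝ) : ‖((κ : ℂ) + v * I)‖ ^ 2 = κ ^ 2 + v ^ 2 := by
  rw [← Complex.normSq_eq_norm_sq, Complex.normSq_apply]
  simp
  ring

theorem norm_ge {κ : ℝ} (hκ : 0 < κ) (v : ℝ) : κ ≤ ‖((κ : ℂ) + v * I)‖ := by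
  have h := Complex.abs_re_le_norm ((κ : ℂ) + v * I)
  simp at h
  exact le_trans (le_abs_self κ) h

theorem Fint {k : ℕ} (hk : 1 ≤ k) {κ : ℝ} (hκ : 0 < κ) (A : ℝ) :
    Integrable (fun v : ℝ => cexp (((κ : ℂ) + v * I) * A) / ((κ : ℂ) + v * I) ^ (k + 1)) := by
  have h0 : Integrable (fun v : ℝ =>
      (Real.exp (κ * A) * (κ ^ (k - 1))⁻¹ * (min (κ ^ 2) 1)⁻¹) * (1 + v ^ 2)⁻¹) :=
    integrable_inv_one_add_sq.const_mul _
  refine h0.mono ?_ (Eventually.of_forall fun v => ?_)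
  · apply Continuous.aestronglyMeasurable
    refine Continuous.div (by fun_prop) (by fun_prop) (fun v => pow_ne_zero _ (nz hκ v))
  · rw [norm_div, norm_pow, Complex.norm_exp]
    have h1 : ((((κ : ℂ) + v * I) * A).re) = κ * A := by simp
    rw [h1]
    have hm : 0 < min (κ ^ 2) 1 := lt_min (by positivity) one_pos
    have h2 : ‖((κ : ℂ) + v * I)‖ ^ (k + 1) ≥ κ ^ (k - 1) * (min (κ ^ 2) 1 * (1 + v ^ 2)) := by
      have e : k + 1 = (k - 1) + 2 := by omega
      rw [e, pow_add, normsq]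
      refine mul_le_mul (pow_le_pow_left₀ hκ.le (norm_ge hκ v) _) ?_ (by positivity) (by positivity)
      have a1 : min (κ ^ 2) 1 ≤ κ ^ 2 := min_le_left _ _
      have a2 : min (κ ^ 2) 1 ≤ 1 := min_le_right _ _
      nlinarith [sq_nonneg v]
    have h3 : 0 < κ ^ (k - 1) * (min (κ ^ 2) 1 * (1 + v ^ 2)) := by positivity
    rw [Real.norm_of_nonneg (by positivity)]
    calc Real.exp (κ * A) / ‖((κ : ℂ) + v * I)‖ ^ (k + 1)
        ≤ Real.exp (κ * A) / (κ ^ (k - 1) * (min (κ ^ 2) 1 * (1 + v ^ 2))) :=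
          div_le_div_of_nonneg_left (Real.exp_pos _).le h3 h2
      _ = _ := by
          field_simp

/-- the function whose transform is computed -/
noncomputable def g (k : ℕ) (κ : ℝ) (x : ℝ) : ℂ := (((max 0 x) ^ k * Real.exp (-(κ * x)) : ℝ) : ℂ)

theorem g_cont (k : ℕ) (κ : ℝ) : Continuous (g k κ) := by
  unfold g
  fun_prop

theorem g_ind {k : ℕ} (hk : 1 ≤ k) (κ : ℝ) :
    g k κ = (Set.Ioi (0 : ℝ)).indicator (fun x : ℝ => (x : ℂ) ^ k * cexp (-((κ : ℂ) * x))) := by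
  funext x
  by_cases hx : 0 < x
  · rw [Set.indicator_of_mem (by exact hx)]
    unfold g
    rw [max_eq_right hx.le]
    push_cast
    rfl
  · rw [Set.indicator_of_notMem (by exact hx)]
    unfold g
    rw [max_eq_left (not_lt.mp hx), zero_pow (by omega)]
    simp

theorem g_int {k : ℕ} (hk : 1 ≤ k) {κ : ℝ} (hκ : 0 < κ) : Integrable (g k κ) := by
  rw [g_ind hk κ, integrable_indicator_iff measurableSet_Ioi]
  have h := integrableOn_rpow_mul_exp_neg_mul_rpow (p := 1) (s := (k : ℝ)) (b := κ)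
    (by have : (0 : ℝ) ≤ k := Nat.cast_nonneg k
        linarith) one_pos hκ
  have h2 : IntegrableOn (fun x : ℝ => ((x ^ (k : ℝ) * Real.exp (-κ * x ^ (1 : ℝ)) : ℝ) : ℂ))
      (Set.Ioi 0) := h.ofReal
  refine h2.congr_fun ?_ measurableSet_Ioi
  intro x hx
  simp only [Real.rpow_natCast, Real.rpow_one]
  push_cast
  ring_nf

theorem pow_int (k : ℕ) {r : ℂ} (hr : 0 < r.re) :
    IntegrableOn (fun x : ℝ => (x : ℂ) ^ k * cexp (-(r * x))) (Set.Ioi (0 : ℝ)) := by
  have h := integrableOn_rpow_mul_exp_neg_mul_rpow (p := 1) (s := (k : ℝ)) (b := r.re)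
    (by have : (0 : ℝ) ≤ k := Nat.cast_nonneg k
        linarith) one_pos hr
  refine h.mono' ?_ ?_
  · apply Continuous.aestronglyMeasurable
    fun_prop
  · refine (ae_restrict_iff' measurableSet_Ioi).mpr (Eventually.of_forall fun x hx => ?_)
    have hx' : (0 : ℝ) < x := hx
    rw [norm_mul, norm_pow, Complex.norm_exp, Complex.norm_real, Real.norm_of_nonneg hx'.le,
      Real.rpow_natCast, Real.rpow_one]
    apply le_of_eq
    congr 2
    simp

theorem pow_tend (k : ℕ) {r : ℂ} (hr : 0 < r.re) :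
    Tendsto (fun x : ℝ => (x : ℂ) ^ k * cexp (-(r * x))) atTop (𝓝 0) := by
  have h := tendsto_rpow_mul_exp_neg_mul_atTop_nhds_zero (k : ℝ) r.re hr
  rw [tendsto_zero_iff_norm_tendsto_zero]
  refine h.congr' ?_
  filter_upwards [eventually_gt_atTop (0 : ℝ)] with x hx
  rw [norm_mul, norm_pow, Complex.norm_exp, Complex.norm_real, Real.norm_of_nonneg hx.le,
      Real.rpow_natCast]
  congr 2
  simp

theorem gam (k : ℕ) {r : ℂ} (hr : 0 < r.re) :
    ∫ x : ℝ in Set.Ioi (0 : ℝ), (x : ℂ) ^ k * cexp (-(r * x)) =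
      (k.factorial : ℂ) / r ^ (k + 1) := by
  have hr0 : r ≠ 0 := by
    intro h
    rw [h] at hr
    simp at hr
  induction k with
  | zero =>
    have h := integral_exp_mul_complex_Ioi (a := -r) (by simpa using hr) 0
    simp only [neg_mul] at h
    simp only [pow_zero, one_mul, Nat.factorial_zero, Nat.cast_one, zero_add, pow_one]
    rw [h]
    simp
  | succ k ih =>
    have hd : ∀ x ∈ Set.Ici (0 : ℝ), HasDerivAt
        (fun x : ℝ => (x : ℂ) ^ (k + 1) * cexp (-(r * x)))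
        (((k + 1 : ℕ) : ℂ) * ((x : ℂ) ^ k * cexp (-(r * x))) -
          r * ((x : ℂ) ^ (k + 1) * cexp (-(r * x)))) x := by
      intro x _
      have h1 : HasDerivAt (fun z : ℂ => z ^ (k + 1) * cexp (-(r * z)))
          (((k + 1 : ℕ) : ℂ) * (x : ℂ) ^ k * cexp (-(r * x)) +
            (x : ℂ) ^ (k + 1) * (cexp (-(r * x)) * (-(r * 1)))) (x : ℂ) := by
        have a1 : HasDerivAt (fun z : ℂ => z ^ (k + 1)) (((k + 1 : ℕ) : ℂ) * (x : ℂ) ^ k) (x : ℂ) :=
          by simpa using hasDerivAt_pow (k + 1) (x : ℂ)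
        have a2 : HasDerivAt (fun z : ℂ => cexp (-(r * z))) (cexp (-(r * x)) * (-(r * 1))) (x : ℂ) :=
          (((hasDerivAt_id (x : ℂ)).const_mul r).neg).cexp
        exact a1.mul a2
      have h2 := h1.comp_ofReal
      convert h2 using 1
      ring
    have hint := ((pow_int k hr).const_mul ((k + 1 : ℕ) : ℂ)).sub
      ((pow_int (k + 1) hr).const_mul r)
    have hz := integral_Ioi_of_hasDerivAt_of_tendsto' hd hint (pow_tend (k + 1) hr)
    rw [integral_sub ((pow_int k hr).const_mul _) ((pow_int (k + 1) hr).const_mul _),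
      integral_const_mul, integral_const_mul, ih] at hz
    simp only [ofReal_zero, ne_eq, Nat.add_eq_zero_iff, one_ne_zero, and_false, not_false_eq_true,
      zero_pow, zero_mul, sub_zero] at hz
    have h3 : r * (∫ x : ℝ in Set.Ioi (0 : ℝ), (x : ℂ) ^ (k + 1) * cexp (-(r * x))) =
        ((k + 1 : ℕ) : ℂ) * ((k.factorial : ℂ) / r ^ (k + 1)) := by
      linear_combination -hz
    rw [eq_div_iff (pow_ne_zero _ hr0), Nat.factorial_succ, pow_succ r (k + 1)]
    have h4 := congrArg (fun t => t * r ^ (k + 1)) h3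
    beta_reduce at h4
    push_cast at h4 ⊢
    rw [show (∫ x : ℝ in Set.Ioi (0 : ℝ), (x : ℂ) ^ (k + 1) * cexp (-(r * x))) * (r ^ (k + 1) * r) =
      r * (∫ x : ℝ in Set.Ioi (0 : ℝ), (x : ℂ) ^ (k + 1) * cexp (-(r * x))) * r ^ (k + 1) by ring]
    rw [h4]
    field_simp

theorem four_g {k : ℕ} (hk : 1 ≤ k) {κ : ℝ} (hκ : 0 < κ) (w : ℝ) :
    FourierTransform.fourier (g k κ) w =
      (k.factorial : ℂ) / ((κ : ℂ) + (2 * Real.pi * w : ℝ) * I) ^ (k + 1) := by
  rw [Real.fourier_eq']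
  have h1 : (fun v : ℝ => cexp (((-2 * Real.pi * inner ℝ v w : ℝ) : ℂ) * I) • g k κ v) =
      (Set.Ioi (0 : ℝ)).indicator (fun x : ℝ => (x : ℂ) ^ k *
        cexp (-(((κ : ℂ) + (2 * Real.pi * w : ℝ) * I) * x))) := by
    funext x
    rw [g_ind hk κ]
    by_cases hx : 0 < x
    · rw [Set.indicator_of_mem (by exact hx), Set.indicator_of_mem (by exact hx)]
      rw [smul_eq_mul]
      rw [mul_left_comm, ← Complex.exp_add]
      congr 2
      simp only [RCLike.inner_apply, conj_trivial]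
      push_cast
      ring
    · rw [Set.indicator_of_notMem (by exact hx), Set.indicator_of_notMem (by exact hx)]
      simp
  rw [h1, integral_indicator measurableSet_Ioi]
  exact gam k (by simpa using hκ)

theorem Feq {k : ℕ} (hk : 1 ≤ k) {κ : ℝ} (hκ : 0 < κ) (A : ℝ) :
    ∫ v : ℝ, cexp (((κ : ℂ) + v * I) * A) / ((κ : ℂ) + v * I) ^ (k + 1) =
      2 * Real.pi * (((max 0 A) ^ k : ℝ) : ℂ) / (k.factorial : ℂ) := by
  have hF0 := Fint hk hκ 0
  have hpi : (2 * Real.pi : ℝ) ≠ 0 := by positivity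
  have hfi : Integrable (FourierTransform.fourier (g k κ)) := by
    have h1 : FourierTransform.fourier (g k κ) = fun w : ℝ => (k.factorial : ℂ) *
        ((fun v : ℝ => cexp (((κ : ℂ) + v * I) * (0 : ℝ)) / ((κ : ℂ) + v * I) ^ (k + 1))
          ((2 * Real.pi) * w)) := by
      funext w
      rw [four_g hk hκ w]
      simp
      ring
    rw [h1]
    exact (hF0.comp_mul_left' hpi).const_mul _
  have hinv := MeasureTheory.Integrable.fourierInv_fourier_eq (g_int hk hκ) hfi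
    ((g_cont k κ).continuousAt (x := A))
  rw [Real.fourierInv_eq'] at hinv
  have h2 : (fun v : ℝ => cexp (((2 * Real.pi * inner ℝ v A : ℝ) : ℂ) * I) •
      FourierTransform.fourier (g k κ) v) = fun w : ℝ => (k.factorial : ℂ) *
        cexp (-((κ : ℂ) * A)) *
        ((fun v : ℝ => cexp (((κ : ℂ) + v * I) * A) / ((κ : ℂ) + v * I) ^ (k + 1))
          ((2 * Real.pi) * w)) := by
    funext w
    rw [four_g hk hκ w]
    simp only [smul_eq_mul, RCLike.inner_apply, conj_trivial]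
    have e3 : cexp (((κ : ℂ) + ((2 * Real.pi * w : ℝ) : ℂ) * I) * A) =
        cexp ((κ : ℂ) * A) * cexp (((2 * Real.pi * (A * w) : ℝ) : ℂ) * I) := by
      rw [← Complex.exp_add]
      congr 1
      push_cast
      ring
    have e4 : cexp (-((κ : ℂ) * A)) * cexp ((κ : ℂ) * A) = 1 := by
      rw [← Complex.exp_add]; simp
    rw [e3]
    calc cexp (((2 * Real.pi * (A * w) : ℝ) : ℂ) * I) *
          ((k.factorial : ℂ) / ((κ : ℂ) + ((2 * Real.pi * w : ℝ) : ℂ) * I) ^ (k + 1))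
        = (cexp (-((κ : ℂ) * A)) * cexp ((κ : ℂ) * A)) *
          (cexp (((2 * Real.pi * (A * w) : ℝ) : ℂ) * I) *
          ((k.factorial : ℂ) / ((κ : ℂ) + ((2 * Real.pi * w : ℝ) : ℂ) * I) ^ (k + 1))) := by
            rw [e4, one_mul]
      _ = _ := by ring
  rw [h2, integral_const_mul, Measure.integral_comp_mul_left
    (fun v : ℝ => cexp (((κ : ℂ) + v * I) * A) / ((κ : ℂ) + v * I) ^ (k + 1)) (2 * Real.pi)] at hinv
  have hk0 : (k.factorial : ℂ) ≠ 0 := by exact_mod_cast Nat.factorial_ne_zero k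
  set J : ℂ := ∫ v : ℝ, cexp (((κ : ℂ) + v * I) * A) / ((κ : ℂ) + v * I) ^ (k + 1) with hJ
  have h5 : g k κ A = (((max 0 A) ^ k : ℝ) : ℂ) * cexp (-((κ : ℂ) * A)) := by
    unfold g
    push_cast
    rfl
  rw [h5, abs_of_pos (by positivity)] at hinv
  have hE : cexp (-((κ : ℂ) * A)) ≠ 0 := Complex.exp_ne_zero _
  have hpi' : (2 * Real.pi : ℂ) ≠ 0 := by exact_mod_cast hpi
  have h6 : (k.factorial : ℂ) * ((2 * Real.pi : ℂ)⁻¹ * J) = (((max 0 A) ^ k : ℝ) : ℂ) := by
    apply mul_right_cancel₀ hE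
    rw [← hinv]
    rw [Complex.real_smul]
    push_cast
    ring
  rw [← h6]
  field_simp

end KerInt

open KerInt in
theorem ker_int {k : ℕ} (hk : 1 ≤ k) {a b κ : ℝ} (hb : 0 < b) (hκ : 0 < κ) (ξ : ℝ) :
    Integrable (fun v : ℝ => cexp (-(((κ : ℂ) + v * I) * ξ)) *
      (KE k a b ((κ : ℂ) + v * I) / ((κ : ℂ) + v * I))) ∧
    ∫ v : ℝ, cexp (-(((κ : ℂ) + v * I) * ξ)) *
      (KE k a b ((κ : ℂ) + v * I) / ((κ : ℂ) + v * I)) = 2 * Real.pi * (wt k a b ξ : ℂ) := by
  have hb' : (b : ℂ) ≠ 0 := by exact_mod_cast hb.ne'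
  have key : (fun v : ℝ => cexp (-(((κ : ℂ) + v * I) * ξ)) *
      (KE k a b ((κ : ℂ) + v * I) / ((κ : ℂ) + v * I))) = fun v : ℝ =>
      ∑ j ∈ Finset.range (k + 1), (((-1 : ℂ) ^ (k - j) * (k.choose j : ℂ)) / (b : ℂ) ^ k) *
        (cexp (((κ : ℂ) + v * I) * ((a + j * b - ξ : ℝ) : ℂ)) / ((κ : ℂ) + v * I) ^ (k + 1)) := by
    funext v
    have hz := nz hκ v
    set z : ℂ := (κ : ℂ) + v * I with hzdef
    have hbz : (b : ℂ) * z ≠ 0 := mul_ne_zero hb' hz
    have e1 : ep ((b : ℂ) * z) = (cexp ((b : ℂ) * z) - 1) / ((b : ℂ) * z) := by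
      unfold ep
      rw [dslope_of_ne _ hbz, slope_def_field]
      simp
    unfold KE
    rw [e1, div_pow, sub_eq_add_neg, add_pow]
    rw [Finset.sum_div, Finset.mul_sum, Finset.sum_div, Finset.mul_sum]
    refine Finset.sum_congr rfl fun j _ => ?_
    have e5 : cexp (z * ((a + j * b - ξ : ℝ) : ℂ)) =
        cexp (-(z * ξ)) * cexp ((a : ℂ) * z) * cexp ((b : ℂ) * z) ^ j := by
      rw [← Complex.exp_nat_mul, ← Complex.exp_add, ← Complex.exp_add]
      congr 1
      push_cast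
      ring
    rw [e5, mul_pow, pow_succ]
    field_simp
  have hI : ∀ j ∈ Finset.range (k + 1), Integrable (fun v : ℝ =>
      (((-1 : ℂ) ^ (k - j) * (k.choose j : ℂ)) / (b : ℂ) ^ k) *
        (cexp (((κ : ℂ) + v * I) * ((a + j * b - ξ : ℝ) : ℂ)) / ((κ : ℂ) + v * I) ^ (k + 1))) :=
    fun j _ => (Fint hk hκ (a + j * b - ξ)).const_mul _
  rw [key]
  refine ⟨integrable_finset_sum _ hI, ?_⟩
  rw [integral_finset_sum _ hI]
  simp_rw [integral_const_mul]
  have h7 : ∀ j : ℕ, ∫ v : ℝ, cexp (((κ : ℂ) + v * I) * ((a + j * b - ξ : ℝ) : ℂ)) /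
      ((κ : ℂ) + v * I) ^ (k + 1) =
      2 * Real.pi * (((max 0 (a + j * b - ξ)) ^ k : ℝ) : ℂ) / (k.factorial : ℂ) :=
    fun j => Feq hk hκ (a + j * b - ξ)
  simp_rw [h7]
  unfold wt
  push_cast
  rw [Finset.sum_div, Finset.mul_sum]
  refine Finset.sum_congr rfl fun j _ => ?_
  have hk0 : (k.factorial : ℂ) ≠ 0 := by exact_mod_cast Nat.factorial_ne_zero k
  field_simp

end Pool.Agent.A856.SD
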