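import Pool.Agent.Y772.NZ.Zeta
import Pool.Agent.Y773.HK.Eul

/-!
Bounds of the Dedekind zeta function `LI (one K)` to the right of `1`
(job for helper856, Selberg's density theorem for Hecke L-functions).
-/

set_option autoImplicit false

open NumberField Complex Filter Topology MeasureTheory

namespace Pool.Agent.A856.SD

open Pool.Agent.Y773 (LI)
open Pool.Agent.Y772.NZ (one)

section aux

open Pool.Agent.Y772.DK Pool.Agent.Y772.NZ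

variable (K : Type) [Field K] [NumberField K]

lemma near_bds : ∃ r A B : ℝ, 0 < r ∧ r ≤ 1 ∧ 0 < A ∧ 0 < B ∧ ∀ z : ℂ, 0 < z.re → ‖z‖ < r →
    ‖LI (one K) (1 + z)‖ ≤ B / ‖z‖ ∧ A / ‖z‖ ≤ ‖LI (one K) (1 + z)‖ := by
  obtain ⟨g, hg, hg1, hgz⟩ := near_one K
  have hG : 0 < ‖g 1‖ := norm_pos_iff.2 hg1
  have h1 : ∀ᶠ z in 𝓝 (1 : ℂ), ‖g z‖ < ‖g 1‖ + 1 :=
    hg.continuousAt.norm.eventually_lt_const (lt_add_one _)
  have h2 : ∀ᶠ z in 𝓝 (1 : ℂ), ‖g 1‖ / 2 < ‖g z‖ :=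
    hg.continuousAt.norm.eventually_const_lt (by linarith)
  obtain ⟨ε, hε, h⟩ := Metric.eventually_nhds_iff.1 ((h1.and h2).and hgz)
  refine ⟨min ε 1, ‖g 1‖ / 2, ‖g 1‖ + 1, lt_min hε one_pos, min_le_right _ _, by linarith,
    by linarith, ?_⟩
  intro z hz hzr
  have hd : dist (1 + z) 1 < ε := by
    rw [dist_eq_norm, add_sub_cancel_left]
    exact lt_of_lt_of_le hzr (min_le_left _ _)
  obtain ⟨⟨h3, h4⟩, h5⟩ := h hd
  have h6 : LI (one K) (1 + z) = g (1 + z) / (1 + z - 1) := h5 (by rw [add_re, one_re]; linarith)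
  rw [h6, add_sub_cancel_left, norm_div]
  exact ⟨div_le_div_of_nonneg_right h3.le (norm_nonneg _),
    div_le_div_of_nonneg_right h4.le (norm_nonneg _)⟩

lemma LI_le {σ : ℝ} (hσ : 1 < σ) {s : ℂ} (hs : σ ≤ s.re) :
    ‖LI (one K) s‖ ≤ ∑' 𝔞, nr K σ 𝔞 :=
  LA_le (a := fun 𝔞 => one K 𝔞) (map_zero (one K)) (one_norm K) hσ hs

/-- `‖LI (1+z)‖ ≥ 1/‖LI (1 + Re z)‖` -/
lemma LI_ge {z : ℂ} (hz : 0 < z.re) :
    1 ≤ ‖LI (one K) (1 + (z.re : ℂ))‖ * ‖LI (one K) (1 + z)‖ := by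
  have hs1 : 1 < (1 + (z.re : ℂ)).re := by rw [add_re, one_re, ofReal_re]; linarith
  have hs2 : 1 < (1 + z).re := by rw [add_re, one_re]; linarith
  rw [LI_eq_exp (one K) (one_norm K) hs1, LI_eq_exp (one K) (one_norm K) hs2, ← norm_mul,
    ← Complex.exp_add, Complex.norm_exp, add_re]
  apply Real.one_le_exp
  -- coefficients are real and nonnegative
  have hee : ∀ 𝔞 : Ideal (𝓞 K), ∃ e : ℝ, 0 ≤ e ∧ ee (one K) 𝔞 = (e : ℂ) := by
    intro 𝔞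
    by_cases h : 𝔞 = 0
    · exact ⟨0, le_rfl, by rw [h, ee_zero, ofReal_zero]⟩
    · refine ⟨Pool.Agent.Y773.VM 𝔞 / Real.log (Ideal.absNorm 𝔞),
        div_nonneg (VM_nonneg _) (Real.log_natCast_nonneg _), ?_⟩
      unfold ee
      rw [one_ne K h, mul_one]
  have hS1 := term_summable (ee_zero (one K)) (ee_le (one K) (one_norm K)) hs1
  have hS2 := term_summable (ee_zero (one K)) (ee_le (one K) (one_norm K)) hs2
  have hn : ∀ 𝔞 : Ideal (𝓞 K),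
      ‖ee (one K) 𝔞 * ((Ideal.absNorm 𝔞 : ℕ) : ℂ) ^ (-(1 + z))‖ =
        (ee (one K) 𝔞 * ((Ideal.absNorm 𝔞 : ℕ) : ℂ) ^ (-(1 + (z.re : ℂ)))).re := by
    intro 𝔞
    by_cases h : 𝔞 = 0
    · rw [h, ee_zero, zero_mul, zero_mul, norm_zero, zero_re]
    · obtain ⟨e, he, hee'⟩ := hee 𝔞
      have hN : (0 : ℝ) ≤ (Ideal.absNorm 𝔞 : ℕ) := Nat.cast_nonneg _
      have h1 : ((Ideal.absNorm 𝔞 : ℕ) : ℂ) ^ (-(1 + (z.re : ℂ))) =
          ((((Ideal.absNorm 𝔞 : ℕ) : ℝ) ^ (-(1 + z.re)) : ℝ) : ℂ) := by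
        rw [ofReal_cpow hN]
        push_cast
        rfl
      rw [hee', h1, ← ofReal_mul, ofReal_re, norm_mul, norm_real, Real.norm_of_nonneg he,
        Complex.norm_natCast_cpow_of_pos (absNorm_pos' h), neg_re, add_re, one_re]
  have hre1 : (LA (ee (one K)) (1 + (z.re : ℂ))).re =
      ∑' 𝔞 : Ideal (𝓞 K), (ee (one K) 𝔞 * ((Ideal.absNorm 𝔞 : ℕ) : ℂ) ^ (-(1 + (z.re : ℂ)))).re := by
    unfold LA
    exact Complex.re_tsum hS1.of_norm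
  have hle : ‖LA (ee (one K)) (1 + z)‖ ≤ (LA (ee (one K)) (1 + (z.re : ℂ))).re := by
    rw [hre1, ← tsum_congr hn]
    exact norm_tsum_le_tsum_norm hS2
  have h3 := (abs_le.1 ((Complex.abs_re_le_norm (LA (ee (one K)) (1 + z))).trans hle)).1
  linarith

end aux

theorem zeta_up (K : Type) [Field K] [NumberField K] : ∃ C : ℝ, 1 ≤ C ∧ ∀ x : ℝ, 0 < x →
    ‖LI (one K) (1 + x)‖ ≤ C * (1 + 1 / x) := by
  obtain ⟨r, A, B, hr, hr1, hA, hB, h⟩ := near_bds K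
  refine ⟨max 1 (max B (∑' 𝔞, Pool.Agent.Y772.DK.nr K (1 + r) 𝔞)), le_max_left _ _, ?_⟩
  intro x hx
  set C := max 1 (max B (∑' 𝔞, Pool.Agent.Y772.DK.nr K (1 + r) 𝔞)) with hC
  have hC1 : 1 ≤ C := le_max_left _ _
  have hCB : B ≤ C := (le_max_left _ _).trans (le_max_right _ _)
  have hCS : ∑' 𝔞, Pool.Agent.Y772.DK.nr K (1 + r) 𝔞 ≤ C :=
    (le_max_right _ _).trans (le_max_right _ _)
  have hx1 : 0 < 1 / x := by positivity
  rcases lt_or_ge x r with hxr | hxr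
  · have h1 := (h (x : ℂ) (by simpa using hx) (by
      rw [norm_real, Real.norm_of_nonneg hx.le]; exact hxr)).1
    rw [norm_real, Real.norm_of_nonneg hx.le] at h1
    calc ‖LI (one K) (1 + x)‖ ≤ B / x := h1
      _ = B * (1 / x) := by ring
      _ ≤ C * (1 + 1 / x) := mul_le_mul hCB (by linarith) hx1.le (by linarith)
  · calc ‖LI (one K) (1 + x)‖ ≤ ∑' 𝔞, Pool.Agent.Y772.DK.nr K (1 + r) 𝔞 :=
        LI_le K (by linarith) (by rw [add_re, one_re, ofReal_re]; linarith)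
      _ ≤ C := hCS
      _ = C * 1 := (mul_one _).symm
      _ ≤ C * (1 + 1 / x) := mul_le_mul_of_nonneg_left (by linarith) (by linarith)

theorem zeta_low (K : Type) [Field K] [NumberField K] : ∃ C : ℝ, 1 ≤ C ∧ ∀ z : ℂ, 0 < z.re →
    1 ≤ C * ‖z‖ * (1 + ‖z‖ / z.re) * ‖LI (one K) (1 + z)‖ := by
  obtain ⟨r, A, B, hr, hr1, hA, hB, h⟩ := near_bds K
  obtain ⟨C1, hC1, hup⟩ := zeta_up K
  refine ⟨max (C1 / r ^ 2) (max (1 / A) 1), (le_max_right _ _).trans' (le_max_right _ _), ?_⟩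
  intro z hz
  set C := max (C1 / r ^ 2) (max (1 / A) 1) with hC
  have hCr : C1 / r ^ 2 ≤ C := le_max_left _ _
  have hCA : 1 / A ≤ C := (le_max_left _ _).trans (le_max_right _ _)
  have hC0 : 1 ≤ C := (le_max_right _ _).trans (le_max_right _ _)
  have hz0 : 0 < ‖z‖ := lt_of_lt_of_le hz ((le_abs_self _).trans (Complex.abs_re_le_norm z))
  have hq : 0 < ‖z‖ / z.re := div_pos hz0 hz
  rcases lt_or_ge ‖z‖ r with hzr | hzr
  · have h1 := (h z hz hzr).2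
    calc (1 : ℝ) = (1 / A) * ‖z‖ * 1 * (A / ‖z‖) := by field_simp
      _ ≤ C * ‖z‖ * (1 + ‖z‖ / z.re) * ‖LI (one K) (1 + z)‖ := by
        refine mul_le_mul ?_ h1 (by positivity) (by positivity)
        refine mul_le_mul ?_ (by linarith) zero_le_one (by positivity)
        exact mul_le_mul_of_nonneg_right hCA hz0.le
  · have h1 := LI_ge K hz
    have h2 := hup z.re hz
    have h3 : 0 ≤ ‖LI (one K) (1 + z)‖ := norm_nonneg _
    have h4 : C1 * (1 + 1 / z.re) ≤ C * ‖z‖ * (1 + ‖z‖ / z.re) := by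
      have h5 : r ^ 2 * (1 + 1 / z.re) ≤ ‖z‖ * (1 + ‖z‖ / z.re) := by
        have e1 : r ^ 2 * (1 + 1 / z.re) = r ^ 2 + r ^ 2 / z.re := by ring
        have e2 : ‖z‖ * (1 + ‖z‖ / z.re) = ‖z‖ + ‖z‖ ^ 2 / z.re := by ring
        rw [e1, e2]
        have e3 : r ^ 2 ≤ ‖z‖ ^ 2 := pow_le_pow_left₀ hr.le hzr 2
        have e4 : r ^ 2 ≤ ‖z‖ := by nlinarith
        have e5 : r ^ 2 / z.re ≤ ‖z‖ ^ 2 / z.re := div_le_div_of_nonneg_right e3 hz.le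
        linarith
      calc C1 * (1 + 1 / z.re) = C1 / r ^ 2 * (r ^ 2 * (1 + 1 / z.re)) := by field_simp
        _ ≤ C * (‖z‖ * (1 + ‖z‖ / z.re)) :=
          mul_le_mul hCr h5 (by positivity) (by linarith)
        _ = C * ‖z‖ * (1 + ‖z‖ / z.re) := by ring
    calc (1 : ℝ) ≤ ‖LI (one K) (1 + (z.re : ℂ))‖ * ‖LI (one K) (1 + z)‖ := h1
      _ ≤ C1 * (1 + 1 / z.re) * ‖LI (one K) (1 + z)‖ := mul_le_mul_of_nonneg_right h2 h3
      _ ≤ C * ‖z‖ * (1 + ‖z‖ / z.re) * ‖LI (one K) (1 + z)‖ := mul_le_mul_of_nonneg_right h4 h3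

end Pool.Agent.A856.SD
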